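import Mathlib

/-!
# A checker for polynomial inequalities in `n` variables on a box

`T n`: polynomials in `n` variables with integer coefficients (nested lists, variable `0` is the
outermost). The box is `0 ≤ x i ≤ r i` (integers `r i`); a box is split by exact integer Taylor
shifts. A box is accepted if the corner bound of the goal polynomial is `≥ 0`, or if one of the
constraint polynomials (assumed `≤ 0`) is positive on the whole box. The splitting tree is coded
in one natural number (base 8 digits: `0` = leaf, `i + 1` = split the variable `i`).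
-/

namespace Helper98.BXN

/-- polynomials in `n` variables -/
def T : ℕ → Type
  | 0 => ℤ
  | n + 1 => List (T n)

/-- tail of a point -/
def tl (x : ℕ → ℝ) : ℕ → ℝ := fun i => x (i + 1)

/-- evaluation of a list of coefficients by Horner -/
def evL {α : Type} (e : α → ℝ) : List α → ℝ → ℝ
  | [], _ => 0
  | c :: l, y => e c + y * evL e l y

def ev : (n : ℕ) → T n → (ℕ → ℝ) → ℝ
  | 0, c, _ => ((show ℤ from c) : ℝ)
  | n + 1, l, x => evL (fun c => ev n c (tl x)) (show List (T n) from l) (x 0)

def mapL {α : Type} (f : α → α) : List α → List α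
  | [] => []
  | c :: l => f c :: mapL f l

def smul : (n : ℕ) → ℤ → T n → T n
  | 0, k, c => (k * (show ℤ from c) : ℤ)
  | n + 1, k, l => mapL (smul n k) (show List (T n) from l)

def addL {α : Type} (f : α → α → α) : List α → List α → List α
  | [], m => m
  | a :: l, [] => a :: l
  | a :: l, b :: m => f a b :: addL f l m

def add : (n : ℕ) → T n → T n → T n
  | 0, a, b => ((show ℤ from a) + (show ℤ from b) : ℤ)
  | n + 1, l, m => addL (add n) (show List (T n) from l) (show List (T n) from m)

/-- `p(h + x)` -/
def shL {α : Type} (f : α → α → α) (s : α → α) : List α → List α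
  | [] => []
  | c :: l => addL f (c :: shL f s l) (mapL s (shL f s l))

/-- shift of the variable `i` by `h` -/
def shv : (n : ℕ) → ℕ → ℤ → T n → T n
  | 0, _, _, c => c
  | n + 1, 0, h, l => shL (add n) (smul n h) (show List (T n) from l)
  | n + 1, i + 1, h, l => mapL (shv n i h) (show List (T n) from l)

/-- sum of `min (b c * r ^ j) 0` with running power `R = r ^ j` -/
def lbL {α : Type} (b : α → ℤ) (r : ℤ) : ℤ → List α → ℤ
  | _, [] => 0
  | R, c :: l => min (b c * R) 0 + lbL b r (R * r) l

/-- lower bound on the box -/
def lb : (n : ℕ) → List ℤ → T n → ℤ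
  | 0, _, c => (show ℤ from c)
  | n + 1, r, l => match (show List (T n) from l) with
    | [] => 0
    | c :: l' => lb n r.tail c + lbL (lb n r.tail) (r.headD 0) (r.headD 0) l'

/-- the box -/
def Box : (n : ℕ) → List ℤ → (ℕ → ℝ) → Prop
  | 0, _, _ => True
  | n + 1, r, x => 0 ≤ x 0 ∧ x 0 ≤ (r.headD 0 : ℤ) ∧ Box n r.tail (tl x)

/-! ### evaluation lemmas -/

theorem evL_map {α : Type} {e e' : α → ℝ} {f : α → α} {k : ℝ} (h : ∀ c, e (f c) = k * e' c)
    (l : List α) (y : ℝ) : evL e (mapL f l) y = k * evL e' l y := by
  induction l with
  | nil => simp [mapL, evL]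
  | cons c l ih =>
    simp only [mapL, evL, h, ih]
    ring

theorem ev_smul (n : ℕ) (k : ℤ) (c : T n) (x : ℕ → ℝ) : ev n (smul n k c) x = k * ev n c x := by
  induction n generalizing x with
  | zero => simp [ev, smul]
  | succ n ih => exact evL_map (fun c => ih c (tl x)) _ _

theorem evL_add {α : Type} {e : α → ℝ} {f : α → α → α} (h : ∀ a b, e (f a b) = e a + e b)
    (l m : List α) (y : ℝ) : evL e (addL f l m) y = evL e l y + evL e m y := by
  induction l generalizing m with
  | nil => simp [addL, evL]
  | cons a l ih =>
    cases m with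
    | nil => simp [addL, evL]
    | cons b m =>
      simp only [addL, evL, h, ih]
      ring

theorem ev_add (n : ℕ) (a b : T n) (x : ℕ → ℝ) : ev n (add n a b) x = ev n a x + ev n b x := by
  induction n generalizing x with
  | zero => simp [ev, add]
  | succ n ih => exact evL_add (fun a b => ih a b (tl x)) _ _ _

theorem evL_sh {α : Type} {e : α → ℝ} {f : α → α → α} {s : α → α} {h : ℝ}
    (hf : ∀ a b, e (f a b) = e a + e b) (hs : ∀ c, e (s c) = h * e c) (l : List α) (y : ℝ) :
    evL e (shL f s l) y = evL e l (y + h) := by
  induction l with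
  | nil => simp [shL, evL]
  | cons c l ih =>
    simp only [shL, evL_add hf, evL_map hs, evL, ih]
    ring

theorem tl_update_zero (x : ℕ → ℝ) (v : ℝ) : tl (Function.update x 0 v) = tl x := by
  funext i
  simp [tl]

theorem tl_update_succ (x : ℕ → ℝ) (i : ℕ) (v : ℝ) :
    tl (Function.update x (i + 1) v) = Function.update (tl x) i v := by
  funext j
  by_cases h : j = i
  · subst h; simp [tl]
  · have : j + 1 ≠ i + 1 := by omega
    simp [tl, Function.update_of_ne this, Function.update_of_ne h]

theorem ev_shv (n : ℕ) (i : ℕ) (hi : i < n) (h : ℤ) (c : T n) (x : ℕ → ℝ) :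
    ev n (shv n i h c) x = ev n c (Function.update x i (x i + h)) := by
  induction n generalizing i x with
  | zero => omega
  | succ n ih =>
    cases i with
    | zero =>
      have e1 := evL_sh (e := fun c => ev n c (tl x)) (f := add n) (s := smul n h) (h := (h : ℝ))
        (fun a b => ev_add n a b (tl x)) (fun c => ev_smul n h c (tl x))
        (show List (T n) from c) (x 0)
      have e2 : ev (n + 1) c (Function.update x 0 (x 0 + h))
          = evL (fun c => ev n c (tl x)) (show List (T n) from c) (x 0 + h) := by
        change evL (fun c => ev n c (tl (Function.update x 0 (x 0 + h)))) _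
          (Function.update x 0 (x 0 + h) 0) = _
        rw [tl_update_zero, Function.update_self]
      rw [e2, ← e1]
      rfl
    | succ i =>
      have e1 := evL_map (e := fun c => ev n c (tl x))
        (e' := fun c => ev n c (Function.update (tl x) i (tl x i + h))) (f := shv n i h)
        (k := 1) (fun c => by rw [one_mul]; exact ih i (by omega) c (tl x))
        (show List (T n) from c) (x 0)
      have e2 : ev (n + 1) c (Function.update x (i + 1) (x (i + 1) + h))
          = evL (fun c => ev n c (Function.update (tl x) i (tl x i + h)))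
            (show List (T n) from c) (x 0) := by
        change evL (fun c => ev n c (tl (Function.update x (i + 1) (x (i + 1) + h)))) _
          (Function.update x (i + 1) (x (i + 1) + h) 0) = _
        rw [tl_update_succ, Function.update_of_ne (by omega)]
        rfl
      rw [e2]
      rw [one_mul] at e1
      rw [← e1]
      rfl

theorem lbL_le {α : Type} {b : α → ℤ} {e : α → ℝ} (h : ∀ c, (b c : ℝ) ≤ e c) {r : ℤ} {y : ℝ}
    (hy : 0 ≤ y) (hyr : y ≤ r) (l : List α) (R : ℤ) (Y : ℝ) (hY : 0 ≤ Y) (hYR : Y ≤ R) :
    (lbL b r R l : ℝ) ≤ Y * evL e l y := by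
  induction l generalizing R Y with
  | nil => simp [lbL, evL]
  | cons c l ih =>
    simp only [lbL, evL]
    have h1 := ih (R * r) (Y * y) (mul_nonneg hY hy)
      (by push_cast; exact mul_le_mul hYR hyr hy (hY.trans hYR))
    have h2 : ((min (b c * R) 0 : ℤ) : ℝ) ≤ Y * e c := by
      push_cast
      rcases le_total 0 (b c : ℝ) with hb | hb
      · refine (min_le_right _ _).trans (mul_nonneg hY (hb.trans (h c)))
      · refine (min_le_left _ _).trans ?_
        calc (b c : ℝ) * R ≤ b c * Y := mul_le_mul_of_nonpos_left hYR hb
          _ = Y * b c := by ring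
          _ ≤ Y * e c := mul_le_mul_of_nonneg_left (h c) hY
    push_cast at h1 h2 ⊢
    nlinarith

theorem lb_le (n : ℕ) (r : List ℤ) (c : T n) (x : ℕ → ℝ) (hx : Box n r x) :
    (lb n r c : ℝ) ≤ ev n c x := by
  induction n generalizing r x with
  | zero => exact le_refl _
  | succ n ih =>
    obtain ⟨h0, h1, h2⟩ := hx
    match c with
    | [] => simp [lb, ev, evL]
    | c0 :: l =>
      have e : lb (n + 1) r (c0 :: l : List (T n))
          = lb n r.tail c0 + lbL (lb n r.tail) (r.headD 0) (r.headD 0) l := rfl
      have e2 : ev (n + 1) (c0 :: l : List (T n)) x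
          = ev n c0 (tl x) + x 0 * evL (fun c => ev n c (tl x)) l (x 0) := rfl
      have h3 := ih r.tail c0 (tl x) h2
      have h4 := lbL_le (b := lb n r.tail) (e := fun c => ev n c (tl x))
        (fun c => ih r.tail c (tl x) h2) h0 h1 l (r.headD 0) (x 0) h0 h1
      rw [e2]
      refine le_trans (le_of_eq ?_) (add_le_add h3 h4)
      rw [e]
      push_cast
      ring

/-! ### ranges -/

def rset : ℕ → ℤ → List ℤ → List ℤ
  | _, _, [] => []
  | 0, v, _ :: l => v :: l
  | i + 1, v, a :: l => a :: rset i v l

def rget : ℕ → List ℤ → ℤ
  | _, [] => 0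
  | 0, a :: _ => a
  | i + 1, _ :: l => rget i l

theorem Box_mem {n i : ℕ} {r : List ℤ} {x : ℕ → ℝ} (hi : i < n) (hx : Box n r x) :
    0 ≤ x i ∧ x i ≤ (rget i r : ℤ) := by
  induction n generalizing i r x with
  | zero => omega
  | succ n ih =>
    obtain ⟨h0, h1, h2⟩ := hx
    cases i with
    | zero =>
      cases r with
      | nil => exact ⟨h0, by simpa [rget] using h1⟩
      | cons a l => exact ⟨h0, by simpa [rget] using h1⟩
    | succ i =>
      have h3 := ih (i := i) (by omega) h2
      cases r with
      | nil =>
        refine ⟨h3.1, h3.2.trans (le_of_eq ?_)⟩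
        have : rget i ([] : List ℤ) = 0 := by cases i <;> rfl
        simp [this, rget]
      | cons a l => exact h3

theorem Box_set {n i : ℕ} {r : List ℤ} {x : ℕ → ℝ} {v : ℤ} {w : ℝ} (hi : i < r.length)
    (hx : Box n r x) (h0 : 0 ≤ w) (h1 : w ≤ v) : Box n (rset i v r) (Function.update x i w) := by
  induction n generalizing i r x with
  | zero => exact trivial
  | succ n ih =>
    obtain ⟨g0, g1, g2⟩ := hx
    cases r with
    | nil => simp at hi
    | cons a l =>
      cases i with
      | zero =>
        refine ⟨?_, ?_, ?_⟩
        · rw [Function.update_self]; exact h0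
        · rw [Function.update_self]; simpa [rset] using h1
        · rw [tl_update_zero]; exact g2
      | succ i =>
        refine ⟨?_, ?_, ?_⟩
        · rw [Function.update_of_ne (by omega)]; exact g0
        · rw [Function.update_of_ne (by omega)]; simpa [rset] using g1
        · rw [tl_update_succ]
          exact ih (by simpa using hi) g2

/-! ### the checker -/

/-- leaf test -/
def leaf (n : ℕ) (r : List ℤ) (p : T n) : List (T n) → Bool
  | [] => decide (0 ≤ lb n r p)
  | g :: gs => decide (0 < lb n r g) || leaf n r p gs

def mapG {α : Type} (f : α → α) : List α → List α := mapL f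

/-- the checker: consumes the code of the tree -/
def go (n : ℕ) : ℕ → ℕ → List ℤ → T n → List (T n) → Option ℕ
  | 0, _, _, _, _ => none
  | fuel + 1, code, r, p, gs =>
    let d := code % 8
    if d = 0 then
      if leaf n r p gs then some (code / 8) else none
    else
      let i := d - 1
      if i < n ∧ i < r.length then
        let ri := rget i r
        let h := ri / 2
        match go n fuel (code / 8) (rset i h r) p gs with
        | none => none
        | some c =>
          go n fuel c (rset i (ri - h) r) (shv n i h p) (mapL (shv n i h) gs)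
      else none

/-- meaning of a state -/
def Good (n : ℕ) (r : List ℤ) (p : T n) (gs : List (T n)) : Prop :=
  ∀ x : ℕ → ℝ, Box n r x → (∀ g ∈ gs, ev n g x ≤ 0) → 0 ≤ ev n p x

theorem leaf_good {n : ℕ} {r : List ℤ} {p : T n} {gs gs' : List (T n)} (h : leaf n r p gs = true)
    (hs : ∀ g ∈ gs, g ∈ gs') : Good n r p gs' := by
  intro x hx hg
  induction gs with
  | nil =>
    have h1 : 0 ≤ lb n r p := by simpa [leaf] using h
    have h2 := lb_le n r p x hx
    have h3 : (0 : ℝ) ≤ lb n r p := by exact_mod_cast h1
    linarith
  | cons g gs ih =>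
    rcases (by simpa [leaf] using h : 0 < lb n r g ∨ leaf n r p gs = true) with h1 | h1
    · exfalso
      have h2 := lb_le n r g x hx
      have h3 : (0 : ℝ) < lb n r g := by exact_mod_cast h1
      have h4 := hg g (hs g (by simp))
      linarith
    · exact ih h1 fun g' hg' => hs g' (by simp [hg'])

theorem mem_mapL {α : Type} {f : α → α} {l : List α} {c : α} (h : c ∈ l) : f c ∈ mapL f l := by
  induction l with
  | nil => simp at h
  | cons a l ih =>
    simp only [mapL, List.mem_cons] at h ⊢
    rcases h with h | h
    · left; rw [h]
    · right; exact ih h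

theorem of_mem_mapL {α : Type} {f : α → α} {l : List α} {c : α} (h : c ∈ mapL f l) :
    ∃ a ∈ l, f a = c := by
  induction l with
  | nil => simp [mapL] at h
  | cons a l ih =>
    simp only [mapL, List.mem_cons] at h
    rcases h with h | h
    · exact ⟨a, by simp, h.symm⟩
    · obtain ⟨b, hb, h2⟩ := ih h
      exact ⟨b, by simp [hb], h2⟩

theorem go_good {n : ℕ} {fuel code : ℕ} {r : List ℤ} {p : T n} {gs : List (T n)} {c : ℕ}
    (h : go n fuel code r p gs = some c) : Good n r p gs := by
  induction fuel generalizing code r p gs c with
  | zero => simp [go] at h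
  | succ fuel ih =>
    rw [go] at h
    simp only at h
    split_ifs at h with h1 h2 h3
    · exact leaf_good h2 fun g hg => hg
    · set i := code % 8 - 1 with hi
      set ri := rget i r with hri
      set hh := ri / 2 with hhh
      cases e : go n fuel (code / 8) (rset i hh r) p gs with
      | none => rw [e] at h; simp at h
      | some c' =>
        rw [e] at h
        simp only at h
        have g1 := ih e
        have g2 := ih h
        intro x hx hg
        have hm := Box_mem h3.1 hx
        rcases le_total (x i) (hh : ℝ) with hle | hle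
        · have hb := Box_set (v := hh) (w := x i) h3.2 hx hm.1 hle
          rw [Function.update_eq_self] at hb
          exact g1 x hb hg
        · set x' := Function.update x i (x i - hh) with hx'
          have hb : Box n (rset i (ri - hh) r) x' := by
            refine Box_set (v := ri - hh) (w := x i - hh) h3.2 hx (by linarith) ?_
            push_cast
            linarith [hm.2]
          have hback : Function.update x' i (x' i + (hh : ℝ)) = x := by
            rw [hx', Function.update_self, Function.update_idem]
            have : x i - (hh : ℝ) + hh = x i := by ring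
            rw [this, Function.update_eq_self]
          have hp : ev n (shv n i hh p) x' = ev n p x := by
            rw [ev_shv n i h3.1, hback]
          rw [← hp]
          refine g2 x' hb fun g hg' => ?_
          obtain ⟨a, ha, rfl⟩ := of_mem_mapL hg'
          rw [ev_shv n i h3.1, hback]
          exact hg a ha

/-- **the checker is correct** -/
theorem check {n : ℕ} {fuel code : ℕ} {r : List ℤ} {p : T n} {gs : List (T n)}
    (h : (go n fuel code r p gs).isSome = true) {x : ℕ → ℝ} (hx : Box n r x)
    (hg : ∀ g ∈ gs, ev n g x ≤ 0) : 0 ≤ ev n p x := by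
  obtain ⟨c, hc⟩ := Option.isSome_iff_exists.1 h
  exact go_good hc x hx hg

/-- all constraints are `≤ 0` -/
def AllNeg (n : ℕ) (x : ℕ → ℝ) : List (T n) → Prop
  | [] => True
  | g :: gs => ev n g x ≤ 0 ∧ AllNeg n x gs

theorem AllNeg.mem {n : ℕ} {x : ℕ → ℝ} {gs : List (T n)} (h : AllNeg n x gs) :
    ∀ g ∈ gs, ev n g x ≤ 0 := by
  induction gs with
  | nil => intro g hg; simp at hg
  | cons a l ih =>
    intro g hg
    rcases List.mem_cons.1 hg with h1 | h1
    · rw [h1]; exact h.1
    · exact ih h.2 g h1

theorem check' {n : ℕ} {fuel code : ℕ} {r : List ℤ} {p : T n} {gs : List (T n)}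
    (h : (go n fuel code r p gs).isSome = true) {x : ℕ → ℝ} (hx : Box n r x)
    (hg : AllNeg n x gs) : 0 ≤ ev n p x := check h hx hg.mem

end Helper98.BXN
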